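import Mathlib
import Pool.Agent.W609.T.Five

set_option autoImplicit false

/-!
# Five arbitrary multiplicities, all degrees `d ≥ m₁ + m₂ + m₃`

Let `v 0 ≥ v 1 ≥ ⋯` be multiplicities, all but the first five of which are at most `m`, `m ≥ 1`.
For general points of the complex projective plane the linear system of forms of degree `d` with
these multiplicities is non-special in every degree `d ≥ v 0 + v 1 + v 2` for which the number of
coefficients left by the first three points, or the number of conditions at the other points, is at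
least `2 ^ 17 (4 m ^ 2 + 8 m + 5) ^ 4` (half of it suffices for the coefficients).
-/

namespace Pool.Agent.Results.MP_d3128a_ag.FiveArbitrary

theorem result (r m : ℕ) (hm : 0 < m) (v : Fin (r + 4) → ℕ) (hv : Antitone v)
    (h5 : ∀ i : Fin (r + 4), 5 ≤ (i : ℕ) → v i ≤ m) :
    ∃ F : MvPolynomial (Fin (r + 4) × Fin 2) ℂ, F ≠ 0 ∧
      ∀ P : Fin (r + 4) → Fin 2 → ℂ,
        MvPolynomial.eval (fun ij : Fin (r + 4) × Fin 2 => P ij.1 ij.2) F ≠ 0 →
        ∀ d : ℕ, v 0 + v 1 + v 2 ≤ d →
          (131072 * (4 * m ^ 2 + 8 * m + 5) ^ 4 +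
              (v 0 * (v 0 + 1) + v 1 * (v 1 + 1) + v 2 * (v 2 + 1)) ≤ (d + 1) * (d + 2) ∨
            131072 * (4 * m ^ 2 + 8 * m + 5) ^ 4 ≤
              ∑ i : Fin (r + 4), if 3 ≤ (i : ℕ) then (v i + 1).choose 2 else 0) →
          Module.finrank ℂ
            ↥(MvPolynomial.homogeneousSubmodule (Fin 3) ℂ d ⊓
              Submodule.restrictScalars ℂ
                (⨅ i : Fin (r + 4),
                  (Ideal.span
                    ({MvPolynomial.X 0 - MvPolynomial.C (P i 0) * MvPolynomial.X 2,
                      MvPolynomial.X 1 - MvPolynomial.C (P i 1) * MvPolynomial.X 2} :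
                      Set (MvPolynomial (Fin 3) ℂ))) ^ (v i)))
          = Nat.choose (d + 2) 2 - ∑ i : Fin (r + 4), Nat.choose (v i + 1) 2 := by
  obtain ⟨F, hF, hF'⟩ := W609.T.big5 ℂ hm hv h5
  refine ⟨F.map (algebraMap ℚ ℂ), H932R3.map_ne_zero_of hF, fun P hP d hd h1 => ?_⟩
  rw [MvPolynomial.eval_map] at hP
  exact hF' P hP d hd h1

end Pool.Agent.Results.MP_d3128a_ag.FiveArbitrary
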