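import Mathlib
import Pool.Agent.W611.FinH

set_option autoImplicit false

/-!
# Non-speciality when the third multiplicity is at least quadratic in the sixth

General points of the complex projective plane.

Part 1. Arbitrary multiplicities `w i`, any `m ≥ 1`, `f = 2 m ^ 2 + 3 m + 2`. In every degree
`d ≥ D` the linear system is non-special, where `D` is any number with `D ≥ f`,
`D ≥ w i + f` for `w i > m`, `D ≥ w i + w j + f` for `i ≠ j` and `w i, w j > m`, and, if more than
three of the `w i` are larger than `m`, `2 D ≥ (∑ of the w i larger than m) + 2 f + 2 m + 1`.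

Part 2. Let `w 0 ≥ w 1 ≥ ⋯`. If `m ≥ 1`, and `w 3 ≤ m` and `w 2 ≥ 2 m ^ 2 + 3 m + 2`, or
`w 5 ≤ m` and `w 2 ≥ 4 m ^ 2 + 8 m + 5`, then the linear system is non-special in every degree
`d ≥ w 0 + w 1 + w 2`.
-/

namespace Pool.Agent.Results.MP_d3128a_ag.LargeThirdMultiplicity

theorem result :
    (∀ (n m D : ℕ) (w : Fin n → ℕ), 0 < m → 2 * m ^ 2 + 3 * m + 2 ≤ D →
      (∀ i, m < w i → w i + (2 * m ^ 2 + 3 * m + 2) ≤ D) →
      (∀ i j, i ≠ j → m < w i → m < w j → w i + w j + (2 * m ^ 2 + 3 * m + 2) ≤ D) →
      ((Finset.univ.filter fun i => m < w i).card ≤ 3 ∨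
        (∑ i, if m < w i then w i else 0) + (4 * m ^ 2 + 8 * m + 5) ≤ 2 * D) →
      ∃ F : MvPolynomial (Fin n × Fin 2) ℂ, F ≠ 0 ∧
        ∀ P : Fin n → Fin 2 → ℂ,
          MvPolynomial.eval (fun ij : Fin n × Fin 2 => P ij.1 ij.2) F ≠ 0 →
          ∀ d : ℕ, (D ≤ d ∨ (D + 2).choose 2 ≤ ∑ i, (w i + 1).choose 2) →
            Module.finrank ℂ
              ↥(MvPolynomial.homogeneousSubmodule (Fin 3) ℂ d ⊓
                Submodule.restrictScalars ℂ
                  (⨅ i : Fin n,
                    (Ideal.span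
                      ({MvPolynomial.X 0 - MvPolynomial.C (P i 0) * MvPolynomial.X 2,
                        MvPolynomial.X 1 - MvPolynomial.C (P i 1) * MvPolynomial.X 2} :
                        Set (MvPolynomial (Fin 3) ℂ))) ^ (w i)))
            = Nat.choose (d + 2) 2 - ∑ i, Nat.choose (w i + 1) 2) ∧
    (∀ (s m : ℕ) (w : ℕ → ℕ), 0 < m → Antitone w → (∀ i, s ≤ i → w i = 0) →
      ((w 3 ≤ m ∧ 2 * m ^ 2 + 3 * m + 2 ≤ w 2) ∨ (w 5 ≤ m ∧ 4 * m ^ 2 + 8 * m + 5 ≤ w 2)) →
      ∃ F : MvPolynomial (Fin s × Fin 2) ℂ, F ≠ 0 ∧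
        ∀ P : Fin s → Fin 2 → ℂ,
          MvPolynomial.eval (fun ij : Fin s × Fin 2 => P ij.1 ij.2) F ≠ 0 →
          ∀ d : ℕ, w 0 + w 1 + w 2 ≤ d →
            Module.finrank ℂ
              ↥(MvPolynomial.homogeneousSubmodule (Fin 3) ℂ d ⊓
                Submodule.restrictScalars ℂ
                  (⨅ i : Fin s,
                    (Ideal.span
                      ({MvPolynomial.X 0 - MvPolynomial.C (P i 0) * MvPolynomial.X 2,
                        MvPolynomial.X 1 - MvPolynomial.C (P i 1) * MvPolynomial.X 2} :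
                        Set (MvPolynomial (Fin 3) ℂ))) ^ (w (i : ℕ))))
            = Nat.choose (d + 2) 2 - ∑ i : Fin s, Nat.choose (w (i : ℕ) + 1) 2) := by
  have key : ∀ (n m D : ℕ) (w : Fin n → ℕ), 0 < m → W611.Cnd m D w →
      ∃ F : MvPolynomial (Fin n × Fin 2) ℂ, F ≠ 0 ∧
        ∀ P : Fin n → Fin 2 → ℂ,
          MvPolynomial.eval (fun ij : Fin n × Fin 2 => P ij.1 ij.2) F ≠ 0 →
          ∀ d : ℕ, (D ≤ d ∨ (D + 2).choose 2 ≤ ∑ i, (w i + 1).choose 2) →
            Module.finrank ℂ
              ↥(MvPolynomial.homogeneousSubmodule (Fin 3) ℂ d ⊓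
                Submodule.restrictScalars ℂ
                  (⨅ i : Fin n,
                    (Ideal.span
                      ({MvPolynomial.X 0 - MvPolynomial.C (P i 0) * MvPolynomial.X 2,
                        MvPolynomial.X 1 - MvPolynomial.C (P i 1) * MvPolynomial.X 2} :
                        Set (MvPolynomial (Fin 3) ℂ))) ^ (w i)))
            = Nat.choose (d + 2) 2 - ∑ i, Nat.choose (w i + 1) 2 := by
    intro n m D w hm hC
    obtain ⟨F, hF, hF'⟩ := W611.expH ℂ m hm w D hC
    refine ⟨F.map (algebraMap ℚ ℂ), H932R3.map_ne_zero_of hF, fun P hP d h1 => ?_⟩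
    rw [MvPolynomial.eval_map] at hP
    exact hF' P hP d h1
  constructor
  · intro n m D w hm h1 h2 h3 h4
    refine key n m D w hm ?_
    have e : W611.ff m = 2 * m ^ 2 + 3 * m + 2 := by
      unfold W611.ff
      ring
    refine ⟨by omega, fun i hi => by rw [e]; exact h2 i hi,
      fun i j hij hi hj => by rw [e]; exact h3 i j hij hi hj, ?_⟩
    rcases h4 with h4 | h4
    · left
      refine le_trans (le_of_eq ?_) h4
      unfold W611.Nlg
      rw [Finset.card_filter]
      refine Finset.sum_congr rfl fun a _ => ?_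
      by_cases h : w a ≤ m
      · rw [if_pos h, if_neg (by omega)]
      · rw [if_neg h, if_pos (by omega)]
    · right
      have h0 : (∑ i, if m < w i then w i else 0) = W611.Slg m w := by
        unfold W611.Slg
        refine Finset.sum_congr rfl fun a _ => ?_
        by_cases h : w a ≤ m
        · rw [if_pos h, if_neg (by omega)]
        · rw [if_neg h, if_pos (by omega)]
      rw [h0] at h4
      rw [e]
      omega
  · intro s m w hm hw hs h
    have h01 := hw (show 0 ≤ 1 by omega)
    have h12 := hw (show 1 ≤ 2 by omega)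
    have h03 := hw (show 0 ≤ 3 by omega)
    have h14 := hw (show 1 ≤ 4 by omega)
    have hm2 : 2 * m ^ 2 ≤ 4 * m ^ 2 := Nat.mul_le_mul_right _ (by omega)
    have hf2 : 2 * m ^ 2 + 3 * m + 2 ≤ w 2 := by omega
    obtain ⟨F, hF, hF'⟩ := key s m (w 0 + w 1 + w 2) (fun i => w i) hm (by
      have e : W611.ff m = 2 * m ^ 2 + 3 * m + 2 := by
        unfold W611.ff
        ring
      refine ⟨by omega, fun i hi => ?_, fun i j hij hi hj => ?_, ?_⟩
      · have := hw (show 0 ≤ (i : ℕ) by omega)
        rw [e]
        omega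
      · have hne : (i : ℕ) ≠ (j : ℕ) := fun h => hij (Fin.ext h)
        rw [e]
        rcases Nat.lt_or_ge (i : ℕ) (j : ℕ) with hlt | hge
        · have g1 := hw (show 0 ≤ (i : ℕ) by omega)
          have g2 := hw (show 1 ≤ (j : ℕ) by omega)
          omega
        · have g1 := hw (show 0 ≤ (j : ℕ) by omega)
          have g2 := hw (show 1 ≤ (i : ℕ) by omega)
          omega
      · have hsum : ∀ (g : ℕ → ℕ) (k : ℕ), (∀ i, k ≤ i → g i = 0) →
            ∑ i : Fin s, g (i : ℕ) ≤ ∑ i ∈ Finset.range k, g i := by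
          intro g k hg
          rw [Fin.sum_univ_eq_sum_range g s]
          rcases Nat.lt_or_ge s k with h | h
          · exact Finset.sum_le_sum_of_subset (Finset.range_mono h.le)
          · rw [← Finset.sum_range_add_sum_Ico g h, Finset.sum_eq_zero (s := Finset.Ico k s)
              (fun i hi => hg i (Finset.mem_Ico.1 hi).1)]
            exact le_rfl
        rcases h with ⟨h5, h6⟩ | ⟨h5, h6⟩
        · left
          unfold W611.Nlg
          refine le_trans (hsum (fun i => if w i ≤ m then 0 else 1) 3 fun i hi => ?_) ?_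
          · rw [if_pos (le_trans (hw hi) h5)]
          · refine le_trans (Finset.sum_le_card_nsmul _ _ 1 fun i _ => ?_) (by simp)
            split_ifs <;> omega
        · right
          have h7 : W611.Slg m (fun i : Fin s => w (i : ℕ)) ≤
              ∑ i ∈ Finset.range 5, if w i ≤ m then 0 else w i := by
            unfold W611.Slg
            refine hsum (fun i => if w i ≤ m then 0 else w i) 5 fun i hi => ?_
            rw [if_pos (le_trans (hw hi) h5)]
          have h8 : (∑ i ∈ Finset.range 5, if w i ≤ m then 0 else w i) ≤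
              ∑ i ∈ Finset.range 5, w i := by
            refine Finset.sum_le_sum fun i _ => ?_
            split_ifs <;> omega
          simp only [Finset.sum_range_succ, Finset.sum_range_zero] at h8
          rw [e]
          simp only [Finset.sum_range_succ, Finset.sum_range_zero] at h7
          omega)
    exact ⟨F, hF, fun P hP d hd => hF' P hP d (Or.inl hd)⟩

end Pool.Agent.Results.MP_d3128a_ag.LargeThirdMultiplicity
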